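import Mathlib

set_option autoImplicit false

namespace Pool.Agent.W102.BQN

open IsLocalRing

theorem rd (S : Type) [CommRing S] [IsRegularLocalRing S] (hdim : ringKrullDim S ≤ 1) :
    IsDomain S ∧ IsPrincipalIdealRing S := by
  classical
  have hreg : ((maximalIdeal S).spanFinrank : WithBot ℕ∞) = ringKrullDim S :=
    IsRegularLocalRing.spanFinrank_maximalIdeal
  have hfg : (maximalIdeal S).FG := IsNoetherian.noetherian _
  have hle : (maximalIdeal S).spanFinrank ≤ 1 := by
    rw [← hreg] at hdim
    exact_mod_cast hdim
  rcases Nat.le_one_iff_eq_zero_or_eq_one.mp hle with h0 | h1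
  · -- field
    have hbot : maximalIdeal S = ⊥ := (Submodule.spanFinrank_eq_zero_iff_eq_bot hfg).mp h0
    have hf : IsField S := isField_iff_maximalIdeal_eq.mpr hbot
    letI := hf.toField
    exact ⟨inferInstance, inferInstance⟩
  · -- one generator
    obtain ⟨hprin, hne⟩ := (Submodule.spanFinrank_eq_one_iff _).mp h1
    obtain ⟨t, ht⟩ := hprin
    have ht' : maximalIdeal S = Ideal.span {t} := ht
    -- t is not nilpotent
    have hnil : ¬ IsNilpotent t := by
      intro hn
      have hdim0 : ringKrullDim S ≤ 0 := by
        have : Ring.KrullDimLE 0 S := by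
          rw [Ring.krullDimLE_zero_iff]
          intro I hI
          have hmI : maximalIdeal S ≤ I := by
            rw [ht', Ideal.span_singleton_le_iff_mem]
            obtain ⟨k, hk⟩ := hn
            exact hI.mem_of_pow_mem k (by rw [hk]; exact I.zero_mem)
          have : I = maximalIdeal S := le_antisymm (le_maximalIdeal hI.ne_top) hmI
          rw [this]; infer_instance
        exact Order.krullDimLE_iff _ _ |>.mp this
      rw [← hreg, h1] at hdim0
      exact absurd hdim0 (by norm_num)
    have hpow : ∀ k : ℕ, t ^ k ≠ 0 := fun k hk => hnil ⟨k, hk⟩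
    -- each nonzero element is unit * t^k
    have hrep : ∀ x : S, x ≠ 0 → ∃ (k : ℕ) (u : Sˣ), x = u * t ^ k := by
      intro x hx
      have hinf : (⨅ i : ℕ, maximalIdeal S ^ i) = ⊥ :=
        Ideal.iInf_pow_eq_bot_of_isLocalRing _ (maximalIdeal.isMaximal S).ne_top
      have : ∃ n, x ∉ maximalIdeal S ^ n := by
        by_contra hcon
        push Not at hcon
        have : x ∈ (⨅ i : ℕ, maximalIdeal S ^ i) := by
          rw [Submodule.mem_iInf]; exact hcon
        rw [hinf] at this
        exact hx this
      obtain ⟨n, hn, hmin⟩ : ∃ n, x ∉ maximalIdeal S ^ n ∧ ∀ m < n, x ∈ maximalIdeal S ^ m :=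
        ⟨Nat.find this, Nat.find_spec this, fun m hm => by
          by_contra hcon; exact (Nat.find_min this hm) hcon⟩
      have hn0 : n ≠ 0 := by
        intro h; rw [h, pow_zero] at hn; exact hn (by simp)
      obtain ⟨m, rfl⟩ : ∃ m, n = m + 1 := ⟨n - 1, by omega⟩
      have hxm : x ∈ maximalIdeal S ^ m := hmin m (by omega)
      rw [ht', Ideal.span_singleton_pow, Ideal.mem_span_singleton] at hxm
      obtain ⟨c, hc⟩ := hxm
      have hcu : IsUnit c := by
        by_contra hcu
        have : c ∈ maximalIdeal S := (mem_maximalIdeal c).mpr hcu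
        rw [ht', Ideal.mem_span_singleton] at this
        obtain ⟨d, hd⟩ := this
        apply hn
        rw [ht', Ideal.span_singleton_pow, Ideal.mem_span_singleton]
        exact ⟨d, by rw [hc, hd]; ring⟩
      obtain ⟨u, hu⟩ := hcu
      exact ⟨m, u, by rw [hc, hu]; ring⟩
    have hdom : IsDomain S := by
      haveI : NoZeroDivisors S := by
        refine ⟨fun {x y} hxy => ?_⟩
        by_contra hcon
        push Not at hcon
        obtain ⟨k, u, hx⟩ := hrep x hcon.1
        obtain ⟨l, v, hy⟩ := hrep y hcon.2
        apply hpow (k + l)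
        have : (u * v : S) * t ^ (k + l) = 0 := by
          rw [← hxy, hx, hy]; ring
        have huv : IsUnit (u * v : S) := (u * v).isUnit
        exact (huv.mul_right_eq_zero).mp this
      exact NoZeroDivisors.to_isDomain S
    refine ⟨hdom, ?_⟩
    have := (tfae_of_isNoetherianRing_of_isLocalRing_of_isDomain S).out 4 0
    exact this.mp ⟨t, ht⟩

end Pool.Agent.W102.BQN
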