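import Pool.Agent.W394.BQN.Stm2
import Pool.Agent.W102.BQN.RDcore

set_option autoImplicit false

namespace Pool.Agent.W102.BQN

theorem t_RD : Pool.Agent.W394.BQN.S_RD := fun S _ _ h => rd S h

end Pool.Agent.W102.BQN
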